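import Pool.Agent.Hhelper23.Fock5

set_option autoImplicit false

open MeasureTheory
open scoped ENNReal

namespace Pool.Agent.Results.MP_bbe01f_an.RadialFock

/-- `|z|^2 = |z_1|^2 + ... + |z_n|^2` for `z` in `ℂ^n`. -/
noncomputable def sqNorm {n : ℕ} (z : Fin n → ℂ) : ℝ := ∑ k, ‖z k‖ ^ 2

/-- The space `L^p_α`: (Lebesgue a.e.-)measurable `g` on `ℂ^n` with `g(z) exp(-α|z|^2/2)` in
`L^p(ℂ^n, dv)`, `dv` being Lebesgue measure (`volume` on `Fin n → ℂ`). -/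
def LpAlpha (n : ℕ) (p : ℝ≥0∞) (α : ℝ) : Set ((Fin n → ℂ) → ℂ) :=
  {g | MemLp (fun z => g z * ((Real.exp (-(α * sqNorm z / 2)) : ℝ) : ℂ)) p volume}

/-- The Fock space `F^p_α`: entire functions (complex Fréchet differentiable everywhere) in
`L^p_α`. -/
def Fock (n : ℕ) (p : ℝ≥0∞) (α : ℝ) : Set ((Fin n → ℂ) → ℂ) :=
  {f | Differentiable ℂ f ∧ f ∈ LpAlpha n p α}

/-- The radial derivative `Rf(z) = ∑_k z_k ∂f/∂z_k(z)`. -/
noncomputable def radial {n : ℕ} (f : (Fin n → ℂ) → ℂ) (z : Fin n → ℂ) : ℂ :=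
  ∑ k, z k * fderiv ℂ f z (Pi.single k 1)

open Pool.Agent.Hhelper23 in
lemma norm_weighted {n : ℕ} (α : ℝ) (N : ℕ) (g : (Fin n → ℂ) → ℂ) (z : Fin n → ℂ) :
    ‖g z / (1 + (sqNorm z : ℂ)) ^ N * ((Real.exp (-(α * sqNorm z / 2)) : ℝ) : ℂ)‖ =
      Fock.Phi α N g z := by
  have h0 : 0 < 1 + sqNorm z := Fock.one_add_sqn_pos z
  have h1 : (1 + (sqNorm z : ℂ)) = ((1 + sqNorm z : ℝ) : ℂ) := by push_cast; ring
  rw [norm_mul, norm_div, norm_pow, h1, Complex.norm_real, Complex.norm_real, Real.norm_eq_abs,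
    Real.norm_eq_abs, abs_of_pos h0, abs_of_pos (Real.exp_pos _)]
  rfl

open Pool.Agent.Hhelper23 in
lemma continuous_weighted {n : ℕ} (α : ℝ) (N : ℕ) {g : (Fin n → ℂ) → ℂ} (hg : Continuous g) :
    Continuous fun z =>
      g z / (1 + (sqNorm z : ℂ)) ^ N * ((Real.exp (-(α * sqNorm z / 2)) : ℝ) : ℂ) := by
  have hs : Continuous (sqNorm : (Fin n → ℂ) → ℝ) := Fock.continuous_sqn
  apply Continuous.mul
  · apply Continuous.div hg
    · fun_prop
    · intro z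
      apply pow_ne_zero
      have h0 : 0 < 1 + sqNorm z := Fock.one_add_sqn_pos z
      have h1 : (1 + (sqNorm z : ℂ)) = ((1 + sqNorm z : ℝ) : ℂ) := by push_cast; ring
      rw [h1]
      exact_mod_cast h0.ne'
  · fun_prop

open Pool.Agent.Hhelper23 in
lemma mem_iff_lintegral {n : ℕ} {p : ℝ≥0∞} (hp : p ≠ 0) (hp' : p ≠ ∞) (α : ℝ) (N : ℕ)
    {g : (Fin n → ℂ) → ℂ} (hg : Continuous g) :
    (fun z => g z / (1 + (sqNorm z : ℂ)) ^ N) ∈ LpAlpha n p α ↔
      ∫⁻ z, ENNReal.ofReal (Fock.Phi α N g z ^ p.toReal) < ∞ := by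
  have hm : AEStronglyMeasurable (fun z =>
      g z / (1 + (sqNorm z : ℂ)) ^ N * ((Real.exp (-(α * sqNorm z / 2)) : ℝ) : ℂ)) volume :=
    (continuous_weighted α N hg).aestronglyMeasurable
  have h1 : (fun z => g z / (1 + (sqNorm z : ℂ)) ^ N) ∈ LpAlpha n p α ↔
      eLpNorm (fun z => g z / (1 + (sqNorm z : ℂ)) ^ N *
        ((Real.exp (-(α * sqNorm z / 2)) : ℝ) : ℂ)) p volume < ∞ :=
    ⟨fun h => h.2, fun h => ⟨hm, h⟩⟩
  rw [h1, eLpNorm_lt_top_iff_lintegral_rpow_enorm_lt_top hp hp']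
  have h2 : ∀ z, ‖g z / (1 + (sqNorm z : ℂ)) ^ N *
      ((Real.exp (-(α * sqNorm z / 2)) : ℝ) : ℂ)‖ₑ ^ p.toReal =
      ENNReal.ofReal (Fock.Phi α N g z ^ p.toReal) := by
    intro z
    rw [← ofReal_norm, norm_weighted,
      ENNReal.ofReal_rpow_of_nonneg (Fock.Phi_nonneg _ _ _ _) ENNReal.toReal_nonneg]
  simp_rw [h2]

open Pool.Agent.Hhelper23 in
lemma mem_iff_bounded {n : ℕ} (α : ℝ) (N : ℕ) {g : (Fin n → ℂ) → ℂ} (hg : Continuous g) :
    (fun z => g z / (1 + (sqNorm z : ℂ)) ^ N) ∈ LpAlpha n ∞ α ↔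
      ∃ M : ℝ, ∀ z, Fock.Phi α N g z ≤ M := by
  have hc := continuous_weighted α N hg
  constructor
  · intro h
    have h2 : eLpNorm (fun z => g z / (1 + (sqNorm z : ℂ)) ^ N *
        ((Real.exp (-(α * sqNorm z / 2)) : ℝ) : ℂ)) ∞ volume < ∞ := h.2
    rw [eLpNorm_exponent_top] at h2
    set E : ℝ≥0∞ := eLpNormEssSup (fun z => g z / (1 + (sqNorm z : ℂ)) ^ N *
        ((Real.exp (-(α * sqNorm z / 2)) : ℝ) : ℂ)) volume with hE
    have h3 := ae_le_eLpNormEssSup (μ := (volume : Measure (Fin n → ℂ)))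
      (f := fun z => g z / (1 + (sqNorm z : ℂ)) ^ N *
        ((Real.exp (-(α * sqNorm z / 2)) : ℝ) : ℂ))
    rw [← hE] at h3
    have h4 : ∀ᵐ z : Fin n → ℂ, Fock.Phi α N g z ≤ E.toReal := by
      filter_upwards [h3] with z hz
      rw [← ofReal_norm, norm_weighted, ← ENNReal.ofReal_toReal h2.ne] at hz
      exact (ENNReal.ofReal_le_ofReal_iff ENNReal.toReal_nonneg).mp hz
    refine ⟨E.toReal, fun z => ?_⟩
    have hopen : IsOpen {z : Fin n → ℂ | E.toReal < Fock.Phi α N g z} :=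
      isOpen_lt continuous_const (Fock.continuous_Phi α N hg)
    have hnull : volume {z : Fin n → ℂ | E.toReal < Fock.Phi α N g z} = 0 := by
      have := ae_iff.mp h4
      simpa only [not_le] using this
    have hempty := (hopen.measure_eq_zero_iff volume).mp hnull
    by_contra hcon
    have : z ∈ ({z : Fin n → ℂ | E.toReal < Fock.Phi α N g z}) := not_le.mp hcon
    rw [hempty] at this
    exact this
  · rintro ⟨M, hM⟩
    refine memLp_top_of_bound hc.aestronglyMeasurable M (Filter.Eventually.of_forall fun z => ?_)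
    rw [norm_weighted]
    exact hM z

/-- **Radial-derivative characterisation of Fock spaces** (affirmative answer to Q1). For all
`n ≥ 1`, `0 < p ≤ ∞`, `α > 0`, `N ≥ 1` and all entire `f` on `ℂ^n`:
`f ∈ F^p_α` if and only if `R^N f(z) / (1 + |z|^2)^N ∈ L^p_α`. -/
theorem result :
    ∀ n : ℕ, 1 ≤ n → ∀ p : ℝ≥0∞, 0 < p → ∀ α : ℝ, 0 < α → ∀ N : ℕ, 1 ≤ N →
      ∀ f : (Fin n → ℂ) → ℂ, Differentiable ℂ f →
        (f ∈ Fock n p α ↔
          (fun z => (radial^[N] f) z / (1 + (sqNorm z : ℂ)) ^ N) ∈ LpAlpha n p α) := by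
  intro n _ p hp α hα N _ f hf
  have hrad : (radial : ((Fin n → ℂ) → ℂ) → (Fin n → ℂ) → ℂ) = Pool.Agent.Hhelper23.Fock.radial :=
    rfl
  have hdN : Differentiable ℂ (radial^[N] f) := by
    rw [hrad]
    exact Pool.Agent.Hhelper23.Fock.differentiable_radial_iterate hf N
  have h0 : f ∈ Fock n p α ↔ (fun z => f z / (1 + (sqNorm z : ℂ)) ^ 0) ∈ LpAlpha n p α := by
    simp only [pow_zero, div_one]
    exact ⟨fun h => h.2, fun h => ⟨hf, h⟩⟩
  rw [h0]
  by_cases hp' : p = ∞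
  · subst hp'
    rw [mem_iff_bounded α 0 hf.continuous, mem_iff_bounded α N hdN.continuous, hrad]
    exact Pool.Agent.Hhelper23.Fock.bounded_iff hα hf N
  · rw [mem_iff_lintegral hp.ne' hp' α 0 hf.continuous,
      mem_iff_lintegral hp.ne' hp' α N hdN.continuous, hrad]
    exact Pool.Agent.Hhelper23.Fock.lintegral_iff hα hf (ENNReal.toReal_pos hp.ne' hp') N

end Pool.Agent.Results.MP_bbe01f_an.RadialFock
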